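import Pool.Agent.GEN.StmtsZC

/-! Squad GEN (MP_b48657_ag), row DCB: combinatorics of `keep`. -/

set_option autoImplicit false

namespace Pool.Agent.GEN.H44

open Finset Pool.Agent.Helper6_Mono Pool.Agent.Helper30_Simp Pool.Agent.Helper30_Simp2
  Pool.Agent.GEN

open scoped Classical in
theorem mem_keep {σ : Type} {I : Finset (σ →₀ ℕ)} {K K' : Finset σ} {α : σ →₀ ℕ} :
    α ∈ keep I K K' ↔ α ∈ I ∧ ∀ j ∈ K, j ∉ K' → α j = 0 := by
  unfold keep
  rw [Finset.mem_filter]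

open scoped Classical in
theorem dcb_one {σ : Type} [Fintype σ] (I : Finset (σ →₀ ℕ)) (J K K' : Finset σ)
    (hK : ∀ j ∈ K, ∃ α ∈ I, α j ≠ 0) (hKJ : Disjoint K J) (hK' : K' ⊆ K) :
    dd (keep I K K') J + K.card ≤ dd I J + K'.card ∧ K.card ≤ dd I J := by
  unfold dd
  have h1 : K ⊆ univ.filter fun i => i ∉ J ∧ ∃ α ∈ I, α i ≠ 0 := by
    intro j hj
    rw [Finset.mem_filter]
    exact ⟨Finset.mem_univ _, Finset.disjoint_left.1 hKJ hj, hK j hj⟩
  refine ⟨?_, Finset.card_le_card h1⟩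
  have h2 : Disjoint (univ.filter fun i => i ∉ J ∧ ∃ α ∈ keep I K K', α i ≠ 0) (K \ K') := by
    rw [Finset.disjoint_left]
    intro j hj hj'
    rw [Finset.mem_filter] at hj
    rw [Finset.mem_sdiff] at hj'
    obtain ⟨_, _, α, hα, hαj⟩ := hj
    rw [mem_keep] at hα
    exact hαj (hα.2 j hj'.1 hj'.2)
  have h3 : (univ.filter fun i => i ∉ J ∧ ∃ α ∈ keep I K K', α i ≠ 0) ∪ (K \ K') ⊆
      univ.filter fun i => i ∉ J ∧ ∃ α ∈ I, α i ≠ 0 := by
    intro j hj
    rw [Finset.mem_union] at hj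
    rcases hj with hj | hj
    · rw [Finset.mem_filter] at hj ⊢
      obtain ⟨h4, h5, α, hα, hαj⟩ := hj
      exact ⟨h4, h5, α, (mem_keep.1 hα).1, hαj⟩
    · exact h1 (Finset.mem_sdiff.1 hj).1
  have h4 := Finset.card_le_card h3
  rw [Finset.card_union_of_disjoint h2] at h4
  have h5 := Finset.card_sdiff_add_card_eq_card hK'
  omega

open scoped Classical in
theorem dcb : DcbStmt := by
  intro σ _ I J
  refine ⟨fun K K' hK hKJ hK' => dcb_one I J K K' hK hKJ hK', fun K K' => ⟨?_, ?_⟩, ?_, ?_, ?_⟩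
  · intro α hα
    exact (mem_keep.1 hα).1
  · ext α
    rw [mem_keep]
    constructor
    · exact fun h => h.1
    · exact fun h => ⟨h, fun j h1 h2 => absurd h1 h2⟩
  · intro D K A B hKD hAK hBD
    ext α
    rw [mem_keep, mem_keep, mem_keep]
    constructor
    · rintro ⟨⟨h1, h2⟩, h3⟩
      refine ⟨h1, fun j hj hjAB => ?_⟩
      rw [Finset.mem_union, not_or] at hjAB
      by_cases hjK : j ∈ K
      · exact h3 j hjK hjAB.1
      · exact h2 j (Finset.mem_sdiff.2 ⟨hj, hjK⟩) hjAB.2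
    · rintro ⟨h1, h2⟩
      refine ⟨⟨h1, fun j hj hjB => ?_⟩, fun j hj hjA => ?_⟩
      · rw [Finset.mem_sdiff] at hj
        apply h2 j hj.1
        rw [Finset.mem_union, not_or]
        exact ⟨fun h => hj.2 (hAK h), hjB⟩
      · apply h2 j (hKD hj)
        rw [Finset.mem_union, not_or]
        exact ⟨hjA, fun h => (Finset.mem_sdiff.1 (hBD h)).2 hj⟩
  · intro K K' hK hK' hne
    have h1 : ∃ j ∈ K, j ∉ K' := by
      by_contra hcon
      apply hne
      apply Finset.Subset.antisymm hK'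
      intro j hj
      by_contra h2
      exact hcon ⟨j, hj, h2⟩
    obtain ⟨j, hj, hj'⟩ := h1
    obtain ⟨α, hα, hαj⟩ := hK j hj
    apply Finset.card_lt_card
    rw [Finset.ssubset_iff_of_subset (fun β hβ => (mem_keep.1 hβ).1)]
    exact ⟨α, hα, fun h => hαj ((mem_keep.1 h).2 j hj hj')⟩
  · intro D K B hD hKD hKS hB
    obtain ⟨⟨hne, hs, he⟩, hr⟩ := hKS
    refine ⟨⟨hne, fun α hα => hs α (mem_keep.1 hα).1, fun j hj => ?_⟩, ?_⟩
    · obtain ⟨α, hα, hαj⟩ := he j hj
      refine ⟨α, mem_keep.2 ⟨hα, fun i hi _ => ?_⟩, hαj⟩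
      rw [Finset.mem_sdiff] at hi
      have h1 := hD.2.1 α hα
      have hij : i ≠ j := fun h => hi.2 (h ▸ hj)
      have h2 : ({i, j} : Finset σ) ⊆ D := by
        intro x hx
        rw [Finset.mem_insert, Finset.mem_singleton] at hx
        rcases hx with rfl | rfl
        · exact hi.1
        · exact hKD hj
      have h3 := Finset.sum_le_sum_of_subset (f := fun i => α i) h2
      rw [Finset.sum_pair hij] at h3
      omega
    · refine lt_of_le_of_lt (Submodule.finrank_mono ?_) hr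
      unfold VK
      apply Submodule.span_mono
      rintro v ⟨j, hj, α, hα, β, hβ, h1, h2, h3⟩
      exact ⟨j, hj, α, (mem_keep.1 hα).1, β, (mem_keep.1 hβ).1, h1, h2, h3⟩

end Pool.Agent.GEN.H44
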